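import Pool.Agent.H51.CST.Targets

/-!
Row ABS of `cst_modules`: reduction of the powers of the root of a monic polynomial.
-/

open Polynomial

namespace Pool.Agent.H5.CST

open Pool.Agent.H51.CST

/-- ABS -/
theorem pf_ABS : T_ABS := by
  intro k _ S _ _ FF e c ν _ hmul hmon hdeg hco
  have hroot : AdjoinRoot.root ν ^ c =
      - ∑ i ∈ Finset.range c, AdjoinRoot.of ν (ν.coeff i) * AdjoinRoot.root ν ^ i := by
    have h := AdjoinRoot.eval₂_root ν
    rw [eval₂_eq_sum_range, hdeg, Finset.sum_range_succ] at h
    have hc : ν.coeff c = 1 := by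
      rw [← hdeg]
      exact hmon.coeff_natDegree
    rw [hc, map_one, one_mul] at h
    exact eq_neg_of_add_eq_zero_right h
  intro l
  induction l using Nat.strong_induction_on with
  | _ l ih =>
    intro m n u hmn hu
    by_cases hl : l < c
    · exact Submodule.subset_span ⟨l, m, u, hl, hmn, hu, rfl⟩
    · rw [not_lt] at hl
      have e1 : AdjoinRoot.of ν u * AdjoinRoot.root ν ^ l =
          - ∑ i ∈ Finset.range c,
            AdjoinRoot.of ν (u * ν.coeff i) * AdjoinRoot.root ν ^ (l - c + i) := by
        have e2 : AdjoinRoot.root ν ^ l = AdjoinRoot.root ν ^ (l - c) * AdjoinRoot.root ν ^ c := by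
          rw [← pow_add, Nat.sub_add_cancel hl]
        rw [e2, hroot, mul_neg, mul_neg, Finset.mul_sum, Finset.mul_sum]
        congr 1
        refine Finset.sum_congr rfl (fun i _ => ?_)
        rw [map_mul, pow_add]
        ring
      rw [e1]
      refine Submodule.neg_mem _ (Submodule.sum_mem _ (fun i hi => ?_))
      have hic := Finset.mem_range.1 hi
      refine ih (l - c + i) (by omega) (m + e * (c - i)) n (u * ν.coeff i) ?_
        (hmul _ _ _ _ hu (hco i hic))
      have e3 : (c - i) + (l - c + i) = l := by omega
      calc m + e * (c - i) + e * (l - c + i) = m + e * ((c - i) + (l - c + i)) := by ring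
        _ = m + e * l := by rw [e3]
        _ ≤ n := hmn

end Pool.Agent.H5.CST
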